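import Mathlib
import Pool.Agent.H10Fano

set_option autoImplicit false

namespace Pool.Agent.Results.MP_31d2fb_co.TruncatedPetersen

open Pool.Agent.H10Fano

/-- There is a loopless cubic graph with an `F_k`-flow for every `k ≥ 4` (in particular with an
`F_5`-flow) and a 2-factor `C0` of it such that for every 2-factor `C1` and every even subgraph `C2`
the union `C0 ∪ C1 ∪ C2` is not the whole edge set. -/
theorem result : ∃ (V E : Type) (_ : Fintype V) (_ : DecidableEq V) (_ : Fintype E)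
    (_ : DecidableEq E) (s t : E → V),
    (∀ e, s e ≠ t e) ∧ IsCubic s t ∧ (∀ k : ℕ, 4 ≤ k → HasFanoFlow s t k) ∧
    ∃ C0 : Finset E, IsTwoFactor s t C0 ∧
      ∀ C1 C2 : Finset E, IsTwoFactor s t C1 → IsEvenSub s t C2 →
        C0 ∪ C1 ∪ C2 ≠ Finset.univ := by
  refine ⟨Fin 30, Fin 45, inferInstance, inferInstance, inferInstance, inferInstance,
    Pool.Agent.H10Fano.s, Pool.Agent.H10Fano.t, loopless, cubic, ?_, C0, C0_two, ?_⟩
  · intro k hk
    obtain ⟨f, h1, h2, h3⟩ := flow4
    exact ⟨f, h1, h2, h3.trans hk⟩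
  · intro C1 C2 h1 h2 h
    exact no_cover C1 C2 h1 h2 h

end Pool.Agent.Results.MP_31d2fb_co.TruncatedPetersen
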